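import Pool.Agent.HC.Orb

set_option autoImplicit false
set_option linter.unusedSectionVars false

noncomputable section

open scoped InnerProductSpace ENNReal Topology
open Classical Filter ContinuousLinearMap

namespace Pool.Agent.HC

open Pool.Agent.VN Pool.Agent.LFT Pool.Agent.HI

section Tree

variable {B V : Type} [Group B] [MulAction B V]

/-- graphs of groups with key estimates -/
theorem atiyah_comb (k : Subring ℂ) (T : SimpleGraph V) (hT : T.IsTree)
    (hadj : ∀ (g : B) (u v : V), T.Adj u v → T.Adj (g • u) (g • v))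
    (hinv : ∀ (g : B) (u v : V), T.Adj u v → ¬ (g • u = v ∧ g • v = u))
    (hA : ∀ v : V, AtiyahOver k (MulAction.stabilizer B v))
    (hK : ∀ u v : V, T.Adj u v → KeyP k (MulAction.stabilizer B u)
      ((MulAction.stabilizer B v).subgroupOf (MulAction.stabilizer B u))) : AtiyahOver k B := by
  have hne : Nonempty V := hT.connected.nonempty
  obtain ⟨v0⟩ := hne
  by_cases hd : Nonempty T.Dart
  swap
  · -- no edges: a single vertex
    have hs : ∀ v : V, v = v0 := by
      intro v
      by_contra hne
      obtain ⟨w⟩ := hT.connected.preconnected v v0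
      cases w with
      | nil => exact hne rfl
      | cons h _ => exact hd ⟨⟨(_, _), h⟩⟩
    refine AtiyahOver.of_injective (hA v0) (MonoidHom.mk' (fun g : B =>
      (⟨g, hs _⟩ : MulAction.stabilizer B v0)) fun a b => rfl) ?_
    intro a b hab
    exact congrArg (fun x : MulAction.stabilizer B v0 => x.1) hab
  obtain ⟨δ0⟩ := hd
  let i1 : MulAction B T.Dart := dartAct T hadj
  let i2 : MulAction B {e : Sym2 V // e ∈ T.edgeSet} := edgeAct T hadj
  obtain ⟨o, ho⟩ := exists_orient T hadj hinv
  set α0 : T.Dart → V := fun e => e.fst with hα0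
  set α1 : T.Dart → {e : Sym2 V // e ∈ T.edgeSet} := fun e => ⟨e.edge, e.edge_mem⟩ with hα1
  have h0 : Eqv B α0 := fun g δ => rfl
  have h1 : Eqv B α1 := fun g δ => rfl
  have hedge : ∀ (g : B) (δ : T.Dart), g • α1 δ = α1 δ → g • δ = δ := by
    intro g δ hg
    rw [← h1] at hg
    have h2 : (g • δ).edge = δ.edge := congrArg Subtype.val hg
    rw [SimpleGraph.dart_edge_eq_iff] at h2
    rcases h2 with h2 | h2
    · exact h2
    · exfalso
      apply hinv g δ.fst δ.snd δ.adj
      exact ⟨congrArg (fun e : T.Dart => e.fst) h2, congrArg (fun e : T.Dart => e.snd) h2⟩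
  have hhalf := tree_half T hT
  have hconn := tree_conn T hT
  have hkey0 : KeyS k B α0 := by
    refine keyS_of_stab α0 h0 fun v => ?_
    let i3 : MulAction (MulAction.stabilizer B v) {δ : T.Dart // α0 δ = v} := fibAct α0 h0 v
    refine keyG_of_orbits fun ξ => ?_
    have hst : MulAction.stabilizer (MulAction.stabilizer B v) ξ
        = (MulAction.stabilizer B ξ.1.snd).subgroupOf (MulAction.stabilizer B v) := by
      ext g
      rw [MulAction.mem_stabilizer_iff, Subgroup.mem_subgroupOf, MulAction.mem_stabilizer_iff]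
      constructor
      · intro h2
        have h3 : (g : B) • ξ.1 = ξ.1 := congrArg Subtype.val h2
        exact congrArg (fun e : T.Dart => e.snd) h3
      · intro h2
        apply Subtype.ext
        show (g : B) • ξ.1 = ξ.1
        apply SimpleGraph.Dart.ext
        refine Prod.ext ?_ h2
        show (g : B) • ξ.1.fst = ξ.1.fst
        have h4 : ξ.1.fst = v := ξ.2
        rw [h4]
        exact g.2
    rw [hst]
    refine hK v ξ.1.snd ?_
    have h5 := ξ.1.adj
    have h4 : ξ.1.fst = v := ξ.2
    rwa [h4] at h5
  have hAF : AF k B α0 α1 := by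
    refine af_of_keys h0 h1 hhalf hkey0 ?_
    intro ι _ d P hP hl u Y hY ε hε
    exact key_of_stab (a := α1) h1 hedge d hP hl u hY hε
  have hIA : Int0 k B V := fun ι _ lab X hX => Rat.int hA hX
  have hIB : Int0 k B {e : Sym2 V // e ∈ T.edgeSet} := by
    refine Int0.of_map (M' := V) o ho hIA
  have hInt : Int0 k B Unit := by
    refine int_of_af (β := fun _ : T.Dart => ()) h0 h1 (fun _ _ => rfl)
      (fun _ => ⟨δ0, rfl⟩) (fun δ δ' _ => hconn δ δ') hAF hIA hIB
  exact atiyah_of_int0 hInt

end Tree

end Pool.Agent.HC
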