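import Pool.Agent.HC.Orb
import Pool.Agent.HC.Fin

set_option autoImplicit false
set_option linter.unusedSectionVars false

noncomputable section

open scoped InnerProductSpace ENNReal Topology
open Classical Filter ContinuousLinearMap

namespace Pool.Agent.HC

open Pool.Agent.VN Pool.Agent.LFT Pool.Agent.HI

section Trans

variable {A : Type} [Group A]

/-- the inclusion of cosets -/
def jq (B C : Subgroup A) : B ⧸ C.subgroupOf B → A ⧸ C :=
  Quotient.map' (fun b : B => (b : A)) fun x y h => by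
    rw [QuotientGroup.leftRel_apply] at h ⊢
    exact h

lemma jq_mk (B C : Subgroup A) (b : B) : jq B C (QuotientGroup.mk b) = QuotientGroup.mk (b : A) :=
  rfl

lemma jq_smul (B C : Subgroup A) (b : B) (x : B ⧸ C.subgroupOf B) :
    jq B C (b • x) = B.subtype b • jq B C x := by
  obtain ⟨g, rfl⟩ := QuotientGroup.mk_surjective x
  rw [MulAction.Quotient.smul_coe, jq_mk, jq_mk, MulAction.Quotient.smul_coe]
  rfl

lemma jq_inj (B C : Subgroup A) : Function.Injective (jq B C) := by
  intro x y h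
  obtain ⟨g, rfl⟩ := QuotientGroup.mk_surjective x
  obtain ⟨g', rfl⟩ := QuotientGroup.mk_surjective y
  rw [jq_mk, jq_mk, QuotientGroup.eq] at h
  rw [QuotientGroup.eq]
  exact h

lemma quo_smul {B C : Subgroup A} (hCB : C ≤ B) (g : A) (x : A ⧸ C) :
    Subgroup.quotientMapOfLE hCB (g • x) = g • Subgroup.quotientMapOfLE hCB x := by
  obtain ⟨g', rfl⟩ := QuotientGroup.mk_surjective x
  rw [MulAction.Quotient.smul_coe, Subgroup.quotientMapOfLE_apply_mk,
    Subgroup.quotientMapOfLE_apply_mk, MulAction.Quotient.smul_coe]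

/-- transitivity of the key estimate -/
theorem key_trans {k : Subring ℂ} {B C : Subgroup A} (hCB : C ≤ B) (h1 : KeyP k A B)
    (h2 : KeyP k B (C.subgroupOf B)) : KeyP k A C := by
  intro ι _ ξ P hP hl u Y hY ε hε
  have ha : Eqv A (Subgroup.quotientMapOfLE hCB) := quo_smul hCB
  have hl1 := loc_map (Subgroup.quotientMapOfLE hCB) ha hP hl
  obtain ⟨S1, hS1, hS1e⟩ := h1 ι inferInstance _ P hP hl1 u Y hY (ε / 2) (half_pos hε)
  obtain ⟨S, hS, hSe⟩ := keyS_orbit' (k := k) (Subgroup.quotientMapOfLE hCB) ha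
    (QuotientGroup.mk (1 : A)) (H := B) (Φ := B ⧸ C.subgroupOf B) B.subtype Subtype.val_injective
    (fun g => by
      rw [MulAction.Quotient.smul_coe, smul_eq_mul, mul_one, eq_comm, QuotientGroup.eq]
      simp)
    (jq B C) (jq_smul B C) (jq_inj B C)
    (fun δ hδ => by
      obtain ⟨g, rfl⟩ := QuotientGroup.mk_surjective δ
      rw [Subgroup.quotientMapOfLE_apply_mk, eq_comm, QuotientGroup.eq] at hδ
      refine ⟨QuotientGroup.mk ⟨g, by simpa using hδ⟩, rfl⟩)
    h2 ι inferInstance ξ (fun i => by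
      obtain ⟨g, hg⟩ := QuotientGroup.mk_surjective (ξ i)
      refine ⟨g⁻¹, ?_⟩
      rw [← hg, Subgroup.quotientMapOfLE_apply_mk, MulAction.Quotient.smul_coe, smul_eq_mul,
        inv_mul_cancel]) P hP hl u S1 hS1 (ε / 2) (half_pos hε)
  exact ⟨S, hS, by linarith⟩

end Trans

end Pool.Agent.HC
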