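import Pool.Agent.HC.One
import Pool.Agent.EH.P8

set_option autoImplicit false
set_option linter.unusedSectionVars false

noncomputable section

open scoped InnerProductSpace ENNReal Topology
open Classical Filter ContinuousLinearMap

/-!
The key estimate for a pair of groups from co-amenable subgroups.
-/

namespace Pool.Agent.HC

open Pool.Agent.VN Pool.Agent.LFT Pool.Agent.HI Pool.Agent.EH

/-- sets with finite almost invariant subsets -/
def AmSet (A Q : Type) [Group A] [MulAction A Q] : Prop :=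
  ∀ (F : Finset A) (ε : ℝ), 0 < ε → ∃ E : Finset Q, E.Nonempty ∧
    ∀ g ∈ F, ((E.filter fun x => g • x ∉ E).card : ℝ) ≤ ε * E.card

lemma foel_of_am {A Q G : Type} [Group A] [MulAction A Q] [Group G] (ρ : G →* A)
    (h : AmSet A Q) : Foel G (fun _ : Via ρ Q => (() : Via ρ Unit)) := by
  intro T F ε hε
  obtain ⟨E, hE, hEF⟩ := h (F.image ρ) ε hε
  have hcard : 0 < E.card := Finset.card_pos.2 hE
  set q : Via ρ Unit → Fin E.card → Via ρ Q := fun _ r => toVia ρ (E.equivFin.symm r : Q) with hq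
  have hqi : ∀ w, Function.Injective (q w) := by
    intro w r s h
    exact E.equivFin.symm.injective (Subtype.ext h)
  refine ⟨E.card, q, hcard, fun _ _ => rfl, hqi, ?_⟩
  intro a ha w _ _
  refine le_trans ?_ (hEF (ρ a) (Finset.mem_image_of_mem _ ha))
  rw [Nat.cast_le]
  refine Finset.card_le_card_of_injOn (fun r => ofVia (q w r)) ?_ ((hqi w).injOn)
  intro r hr
  have hr' := (Finset.mem_filter.1 hr).2
  refine Finset.mem_coe.2 (Finset.mem_filter.2 ⟨(E.equivFin.symm r).2, ?_⟩)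
  intro h
  apply hr'
  refine ⟨E.equivFin ⟨_, h⟩, ?_⟩
  show ((E.equivFin.symm (E.equivFin ⟨_, h⟩) : E) : Q) = _
  rw [Equiv.symm_apply_apply]
  rfl

section Fibre

variable {H : Type} [Group H] {k : Subring ℂ}

/-- copies of a set -/
def LB (Ξ : Type) : Type := Ξ × ℕ × Bool

instance {Ξ : Type} [MulAction H Ξ] : MulAction H (LB Ξ) where
  smul g x := ((g • x.1, x.2) : Ξ × ℕ × Bool)
  one_smul x := by
    show (((1 : H) • x.1, x.2) : Ξ × ℕ × Bool) = x
    rw [one_smul]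
    rfl
  mul_smul g g' x := by
    show (((g * g') • x.1, x.2) : Ξ × ℕ × Bool) = (g • g' • x.1, x.2)
    rw [mul_smul]

lemma keyG_sub {Ξ Ξ0 : Type} [MulAction H Ξ] [MulAction H Ξ0] (j : Ξ0 → Ξ) (hj : Eqv H j)
    (hi : Function.Injective j) (h : KeyG k H Ξ) : KeyG k H Ξ0 := by
  intro ι _ ξ P hP hl u Y hY ε hε
  obtain ⟨S, hS, hSe⟩ := h ι inferInstance (fun i => j (ξ i)) P hP (loc_of_inj j hj hi hl) u Y hY
    ε hε
  exact ⟨S, rat_of_inj j hj hi hS, hSe⟩

lemma keyG_LB {Ξ : Type} [MulAction H Ξ] (h : KeyG k H Ξ) : KeyG k H (LB Ξ) := by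
  refine keyG_of_orbits fun x => ?_
  have h1 : MulAction.stabilizer H x = MulAction.stabilizer H x.1 := by
    ext g
    rw [MulAction.mem_stabilizer_iff, MulAction.mem_stabilizer_iff]
    exact ⟨fun h2 => congrArg Prod.fst h2, fun h2 => Prod.ext h2 rfl⟩
  rw [h1]
  exact keyG_sub (MulAction.ofQuotientStabilizer H x.1)
    (fun g' x' => MulAction.ofQuotientStabilizer_smul H _ g' x')
    (MulAction.injective_ofQuotientStabilizer H _) h

end Fibre

section KeyAF

variable {A : Type} [Group A] {k : Subring ℂ}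

lemma stab_ta {X : Type} [MulAction A X] (hA : AtiyahOver k A) (f : TA X A) :
    AtiyahOver k (MulAction.stabilizer (Sd X A) f) := by
  refine AtiyahOver.of_injective hA ((rh X A).comp (MulAction.stabilizer (Sd X A) f).subtype) ?_
  rw [injective_iff_map_eq_one]
  intro g hg
  have h1 : (g : Sd X A) • f = f := g.2
  have h2 : (g : Sd X A).right = 1 := hg
  have h3 : (g : Sd X A).left * phi X A (g : Sd X A).right (f : FreeGroup X) = f := h1
  rw [h2, map_one] at h3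
  have h4 : (g : Sd X A).left = 1 := mul_eq_right.mp h3
  exact Subtype.ext (SemidirectProduct.ext h4 h2)

lemma stab_tb {X : Type} [MulAction A X] (hA : AtiyahOver k A) (f : TB X A) :
    AtiyahOver k (MulAction.stabilizer (Sd X A) f) := by
  refine AtiyahOver.of_injective hA ((rh X A).comp (MulAction.stabilizer (Sd X A) f).subtype) ?_
  rw [injective_iff_map_eq_one]
  intro g hg
  have h1 : (g : Sd X A) • f = f := g.2
  have h2 : (g : Sd X A).right = 1 := hg
  have h3 : (g : Sd X A).left * phi X A (g : Sd X A).right f.1 = f.1 := (Prod.mk.inj h1).1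
  rw [h2, map_one] at h3
  have h4 : (g : Sd X A).left = 1 := mul_eq_right.mp h3
  exact Subtype.ext (SemidirectProduct.ext h4 h2)

lemma int_ta {X W : Type} [MulAction A X] [MulAction (Sd X A) W] (hA : AtiyahOver k A) :
    Int0 k (Sd X A) (TA X A × W) := by
  intro ι _ lab Y hY
  refine Rat.int ?_ hY
  rintro ⟨f, w⟩
  refine AtiyahOver.of_injective (stab_ta hA f) (MonoidHom.mk' (fun g =>
    (⟨g.1, (Prod.mk.inj g.2).1⟩ : MulAction.stabilizer (Sd X A) f)) fun a b => rfl) ?_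
  intro a b hab
  exact Subtype.ext (congrArg (fun x : MulAction.stabilizer (Sd X A) f => x.1) hab)

lemma int_tb {X W : Type} [MulAction A X] [MulAction (Sd X A) W] (hA : AtiyahOver k A) :
    Int0 k (Sd X A) (TB X A × W) := by
  intro ι _ lab Y hY
  refine Rat.int ?_ hY
  rintro ⟨f, w⟩
  refine AtiyahOver.of_injective (stab_tb hA f) (MonoidHom.mk' (fun g =>
    (⟨g.1, (Prod.mk.inj g.2).1⟩ : MulAction.stabilizer (Sd X A) f)) fun a b => rfl) ?_
  intro a b hab
  exact Subtype.ext (congrArg (fun x : MulAction.stabilizer (Sd X A) f => x.1) hab)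

/-- the estimate for a set follows from the approximate formula for the tree of the free group -/
theorem key_of_af {Ξ : Type} [MulAction A Ξ] (hA : AtiyahOver k A)
    (hAF : AF k (Sd (Lett Ξ) A)
      (Prod.map (ta (Lett Ξ) A) id : TD (Lett Ξ) A × Via (rh (Lett Ξ) A) Unit →
        TA (Lett Ξ) A × Via (rh (Lett Ξ) A) Unit)
      (Prod.map (tb (Lett Ξ) A) id : TD (Lett Ξ) A × Via (rh (Lett Ξ) A) Unit →
        TB (Lett Ξ) A × Via (rh (Lett Ξ) A) Unit)) : KeyG k A Ξ := by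
  intro ι _ ξ P hP hl u Y hY ε hε
  rcases isEmpty_or_nonempty Ξ with he | ⟨⟨ξ0⟩⟩
  · have hι : IsEmpty ι := ⟨fun i => he.false (ξ i)⟩
    refine ⟨⊥, Rat.bot ξ, ?_⟩
    rw [dm_isEmpty, dm_isEmpty, dm_isEmpty, dm_isEmpty]
    linarith
  have hInt : Int0 k (Sd (Lett Ξ) A) (Via (rh (Lett Ξ) A) Unit) := by
    refine int_of_af (β := fun x : TD (Lett Ξ) A × Via (rh (Lett Ξ) A) Unit => x.2) ?_ ?_ ?_ ?_ ?_
      hAF (int_ta hA) (int_tb hA)
    · rintro g ⟨δ, c⟩
      rfl
    · rintro g ⟨δ, c⟩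
      exact Prod.ext (tb_smul _ _ g δ) rfl
    · rintro g ⟨δ, c⟩
      rfl
    · intro w
      exact ⟨(((1 : FreeGroup (Lett Ξ)), ((ξ0, 0) : Lett Ξ), true), w), rfl⟩
    · rintro ⟨δ, u⟩ ⟨δ', u'⟩ _
      exact conn_prod (t_conn (Lett Ξ) A δ δ') u
  have hl' : Loc (pV fun i => (((), ξ i) : Unit × Ξ)) P :=
    loc_of_inj (fun x : Ξ => (((), x) : Unit × Ξ)) (fun g m => rfl)
      (fun x y h => congrArg Prod.snd h) hl
  obtain ⟨S, hS, hSe⟩ := key_of_ext hInt hAF (fun _ : ι => ()) ξ hP hl' u hY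
  refine ⟨S, ?_, by linarith⟩
  exact hS.mapLab (fun x : Unit × Ξ => x.2) fun g m => rfl

lemma stab_dart {X : Type} [MulAction A X] (g : Sd X A) (δ : TD X A)
    (h : g • tb X A δ = tb X A δ) : g • δ = δ := by
  obtain ⟨f, x, c⟩ := δ
  cases c
  · have h1 : ((g.left * phi X A g.right (f * (FreeGroup.of x)⁻¹), g.right • x) : FreeGroup X × X)
      = (f * (FreeGroup.of x)⁻¹, x) := h
    have h2 : g.right • x = x := (Prod.mk.inj h1).2
    have h3 := (Prod.mk.inj h1).1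
    rw [map_mul, map_inv, phi_of, h2, ← mul_assoc] at h3
    have h4 := mul_right_cancel h3
    show ((g.left * phi X A g.right f, g.right • x, false) : FreeGroup X × X × Bool)
      = (f, x, false)
    rw [h4, h2]
  · have h1 : ((g.left * phi X A g.right f, g.right • x) : FreeGroup X × X) = (f, x) := h
    show ((g.left * phi X A g.right f, g.right • x, true) : FreeGroup X × X × Bool)
      = (f, x, true)
    rw [(Prod.mk.inj h1).1, (Prod.mk.inj h1).2]

/-- the formula over the cosets of a subgroup -/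
theorem af_sub {Ξ : Type} [MulAction A Ξ] (B : Subgroup A) (h : KeyG k B Ξ) :
    AF k (Sd (Lett Ξ) A)
      (Prod.map (ta (Lett Ξ) A) id : TD (Lett Ξ) A × Via (rh (Lett Ξ) A) (A ⧸ B) →
        TA (Lett Ξ) A × Via (rh (Lett Ξ) A) (A ⧸ B))
      (Prod.map (tb (Lett Ξ) A) id : TD (Lett Ξ) A × Via (rh (Lett Ξ) A) (A ⧸ B) →
        TB (Lett Ξ) A × Via (rh (Lett Ξ) A) (A ⧸ B)) := by
  have ha : Eqv (Sd (Lett Ξ) A) (Prod.map (ta (Lett Ξ) A) id :
      TD (Lett Ξ) A × Via (rh (Lett Ξ) A) (A ⧸ B) →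
      TA (Lett Ξ) A × Via (rh (Lett Ξ) A) (A ⧸ B)) := by
    rintro g ⟨δ, c⟩
    rfl
  have hb : Eqv (Sd (Lett Ξ) A) (Prod.map (tb (Lett Ξ) A) id :
      TD (Lett Ξ) A × Via (rh (Lett Ξ) A) (A ⧸ B) →
      TB (Lett Ξ) A × Via (rh (Lett Ξ) A) (A ⧸ B)) := by
    rintro g ⟨δ, c⟩
    exact Prod.ext (tb_smul _ _ g δ) rfl
  set v0 : TA (Lett Ξ) A × Via (rh (Lett Ξ) A) (A ⧸ B) :=
    ((1 : FreeGroup (Lett Ξ)), toVia (rh (Lett Ξ) A) (QuotientGroup.mk 1)) with hv0
  refine af_of_keys ha hb (Half.prod (t_half (Lett Ξ) A) _) ?_ ?_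
  · intro ι _ d P hP hl u Y hY ε hε
    refine keyS_orbit' (k := k) _ ha v0 (H := B) (Φ := LB Ξ) ((ir (Lett Ξ) A).comp B.subtype)
      (ir_injective.comp Subtype.val_injective) ?_
      (fun x => (((1 : FreeGroup (Lett Ξ)), ((x.1, x.2.1) : Lett Ξ), x.2.2),
        toVia (rh (Lett Ξ) A) (QuotientGroup.mk 1))) ?_ ?_ ?_ (keyG_LB h) ι inferInstance d ?_
      P hP hl u Y hY ε hε
    · intro g
      constructor
      · intro hg
        have h1 : g.left * phi (Lett Ξ) A g.right (1 : FreeGroup (Lett Ξ)) = 1 :=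
          (Prod.mk.inj hg).1
        have h2 : g.right • ((1 : A) : A ⧸ B) = ((1 : A) : A ⧸ B) := (Prod.mk.inj hg).2
        rw [map_one, mul_one] at h1
        rw [MulAction.Quotient.smul_coe, smul_eq_mul, mul_one, eq_comm, QuotientGroup.eq,
          inv_one, one_mul] at h2
        exact ⟨⟨g.right, h2⟩, SemidirectProduct.ext h1.symm rfl⟩
      · rintro ⟨s, rfl⟩
        refine Prod.ext ?_ ?_
        · show (1 : FreeGroup (Lett Ξ)) * phi (Lett Ξ) A (s : A) (1 : FreeGroup (Lett Ξ)) = 1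
          rw [map_one, mul_one]
        · show (s : A) • ((1 : A) : A ⧸ B) = ((1 : A) : A ⧸ B)
          rw [MulAction.Quotient.smul_coe, smul_eq_mul, mul_one, eq_comm, QuotientGroup.eq,
            inv_one, one_mul]
          exact s.2
    · rintro s ⟨x, n, c⟩
      refine Prod.ext ?_ ?_
      · show ((1 : FreeGroup (Lett Ξ)), (((s : A) • x, n) : Lett Ξ), c)
          = ((1 : FreeGroup (Lett Ξ)) * phi (Lett Ξ) A (s : A) (1 : FreeGroup (Lett Ξ)),
            (((s : A) • x, n) : Lett Ξ), c)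
        rw [map_one, mul_one]
      · show ((1 : A) : A ⧸ B) = (s : A) • ((1 : A) : A ⧸ B)
        rw [MulAction.Quotient.smul_coe, smul_eq_mul, mul_one, QuotientGroup.eq,
          inv_one, one_mul]
        exact s.2
    · rintro ⟨x, n, c⟩ ⟨x', n', c'⟩ hx
      have h1 := congrArg (fun q => q.1.2) hx
      have h2 : ((x, n) : Lett Ξ) = (x', n') := (Prod.mk.inj h1).1
      have h3 : c = c' := (Prod.mk.inj h1).2
      have h4 : x = x' := congrArg Prod.fst h2
      have h5 : n = n' := congrArg Prod.snd h2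
      subst h3 h4 h5
      rfl
    · rintro ⟨⟨f, x, c⟩, w⟩ hδ
      have h1 : f = 1 := (Prod.mk.inj hδ).1
      have h2 : w = toVia (rh (Lett Ξ) A) (QuotientGroup.mk 1) := (Prod.mk.inj hδ).2
      subst h1 h2
      exact ⟨((x.1, x.2, c) : Ξ × ℕ × Bool), rfl⟩
    · intro i
      obtain ⟨⟨f, x, c⟩, w⟩ := d i
      obtain ⟨a, ha'⟩ := QuotientGroup.mk_surjective (ofVia w)
      refine ⟨ir (Lett Ξ) A a⁻¹ * SemidirectProduct.inl f⁻¹, ?_⟩
      rw [mul_smul]
      refine Prod.ext ?_ ?_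
      · show (1 : FreeGroup (Lett Ξ)) * phi (Lett Ξ) A a⁻¹ (f⁻¹ * phi (Lett Ξ) A 1 f) = 1
        rw [map_one, MulAut.one_apply, inv_mul_cancel, map_one, mul_one]
      · show a⁻¹ • (1 : A) • ofVia w = ((1 : A) : A ⧸ B)
        rw [one_smul, ← ha', MulAction.Quotient.smul_coe, smul_eq_mul, inv_mul_cancel]
  · intro ι _ d P hP hl u Y hY ε hε
    refine key_of_stab hb ?_ d hP hl u hY hε
    rintro g ⟨δ, c⟩ h
    have h2 : g • c = c := congrArg Prod.snd h
    exact Prod.ext (stab_dart g δ (congrArg Prod.fst h)) h2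

/-- co-amenable subgroups -/
theorem key_coam {Ξ : Type} [MulAction A Ξ] (hA : AtiyahOver k A) (B : Subgroup A)
    (hB : AmSet A (A ⧸ B)) (h : KeyG k B Ξ) : KeyG k A Ξ :=
  key_of_af hA (af_foel (fun g δ => ta_smul _ A g δ) (fun g δ => tb_smul _ A g δ)
    (fun _ _ => rfl) (foel_of_am (rh (Lett Ξ) A) hB) (af_sub B h) (int_ta hA) (int_tb hA))

/-- directed unions -/
theorem key_union {Ξ : Type} [MulAction A Ξ] (hA : AtiyahOver k A) (H : Finset A → Subgroup A)
    (hH : ∀ F, ∀ g ∈ F, g ∈ H F) (h : ∀ F, KeyG k (H F) Ξ) : KeyG k A Ξ := by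
  refine key_of_af hA ?_
  intro ι _ d K0 K1 h0 h1 ε hε
  obtain ⟨T0, F0, hT0, hL0⟩ := rat_lift_lab h0
  obtain ⟨T1, F1, hT1, hL1⟩ := rat_lift_lab h1
  set B := H ((F0 ∪ F1).image (rh (Lett Ξ) A)) with hB
  have hmem : ∀ γ ∈ F0 ∪ F1, rh (Lett Ξ) A γ ∈ B := fun γ hγ =>
    hH _ _ (Finset.mem_image_of_mem _ hγ)
  have hfix : ∀ γ ∈ F0 ∪ F1, rh (Lett Ξ) A γ • ((1 : A) : A ⧸ B) = ((1 : A) : A ⧸ B) := by
    intro γ hγ
    rw [MulAction.Quotient.smul_coe, smul_eq_mul, mul_one, eq_comm, QuotientGroup.eq,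
      inv_one, one_mul]
    exact hmem γ hγ
  have hR0 := hL0 (TA (Lett Ξ) A × Via (rh (Lett Ξ) A) (A ⧸ B)) inferInstance
    (fun m => (m.1, toVia _ ((1 : A) : A ⧸ B))) (by
      intro γ hγ m hm hm'
      exact Prod.ext rfl (hfix γ (Finset.mem_union_left _ hγ)))
  have hR1 := hL1 (TB (Lett Ξ) A × Via (rh (Lett Ξ) A) (A ⧸ B)) inferInstance
    (fun m => (m.1, toVia _ ((1 : A) : A ⧸ B))) (by
      intro γ hγ m hm hm'
      exact Prod.ext rfl (hfix γ (Finset.mem_union_right _ hγ)))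
  obtain ⟨S, hS, hle⟩ := af_sub B (h _) ι inferInstance
    (fun i => ((d i).1, toVia _ ((1 : A) : A ⧸ B))) K0 K1 hR0 hR1 ε hε
  refine ⟨S, ?_, hle⟩
  exact hS.mapLab (M' := TD (Lett Ξ) A × Via (rh (Lett Ξ) A) Unit)
    (fun m => (m.1, toVia _ ())) (fun g m => rfl)

end KeyAF

end Pool.Agent.HC
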