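import Pool.Agent.HC.Defs
import Pool.Agent.HL.Hier

set_option autoImplicit false
set_option linter.unusedSectionVars false

noncomputable section

open scoped InnerProductSpace ENNReal Topology
open Classical Filter ContinuousLinearMap

namespace Pool.Agent.HC

open Pool.Agent.VN Pool.Agent.LFT Pool.Agent.HI

/-- pairs over a normal subgroup with quotient in the hierarchy -/
theorem key_hierL {k : Subring ℂ} {A : Type} [Group A] (N C : Subgroup A) [N.Normal] (hNC : N ≤ C)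
    (hN : AtiyahOver k N) (h : Pool.Agent.HL.HierL (A ⧸ N)) : KeyP k A C := by
  intro ι _ ξ P hP hl u Y hY ε hε
  set π : A →* A ⧸ N := QuotientGroup.mk' N with hπ
  have hker : AtiyahOver k π.ker := by
    refine AtiyahOver.of_injective hN (MonoidHom.mk' (fun g : π.ker => (⟨g.1,
      (QuotientGroup.eq_one_iff _).1 g.2⟩ : N)) fun a b => rfl) ?_
    intro a b hab
    exact Subtype.ext (congrArg (fun x : N => x.1) hab)
  have h1 : Coc (fun (g : A ⧸ N) (_ : Unit) => g) := ⟨fun _ _ _ => rfl, fun _ _ _ h => h⟩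
  have hG := Pool.Agent.HL.pb_of_hierL k (A ⧸ N) h (A ⧸ N) Unit _ h1
  have htriv : ∀ γ : A, π γ = 1 → ∀ x : Lett (A ⧸ C), γ • x = x := by
    intro γ hγ x
    refine Prod.ext ?_ rfl
    show γ • x.1 = x.1
    obtain ⟨g, hg⟩ := QuotientGroup.mk_surjective x.1
    rw [← hg, MulAction.Quotient.smul_coe, smul_eq_mul]
    rw [QuotientGroup.eq]
    have h3 : γ ∈ N := by
      rw [hπ, QuotientGroup.mk'_apply, QuotientGroup.eq_one_iff] at hγ
      exact hγ
    have h4 : (γ * g)⁻¹ * g = g⁻¹ * γ⁻¹ * g := by group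
    rw [h4]
    apply hNC
    have h5 := Subgroup.Normal.conj_mem (inferInstance : N.Normal) γ⁻¹ (N.inv_mem h3) g⁻¹
    simpa using h5
  have hInt : Int0 k (Sd (Lett (A ⧸ C)) A) (Via (rh (Lett (A ⧸ C)) A) Unit) := by
    have h2 := (hG (Sd (Lett (A ⧸ C)) A) (π.comp (rh (Lett (A ⧸ C)) A))
      (Pool.Agent.HE.ker_ext hker htriv)).1 Unit
    exact Int0.of_map (M' := Via (π.comp (rh (Lett (A ⧸ C)) A)) Unit × Unit)
      (fun _ => (toVia _ (), ())) (fun g m => rfl) h2
  have hAF : AF k (Sd (Lett (A ⧸ C)) A)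
      (Prod.map (ta (Lett (A ⧸ C)) A) id : TD (Lett (A ⧸ C)) A × Via (rh (Lett (A ⧸ C)) A) Unit →
        TA (Lett (A ⧸ C)) A × Via (rh (Lett (A ⧸ C)) A) Unit)
      (Prod.map (tb (Lett (A ⧸ C)) A) id : TD (Lett (A ⧸ C)) A × Via (rh (Lett (A ⧸ C)) A) Unit →
        TB (Lett (A ⧸ C)) A × Via (rh (Lett (A ⧸ C)) A) Unit) := by
    have h2 := (hG A π hker).2 (Lett (A ⧸ C)) htriv Unit
    exact AF.of_inj (D' := TD (Lett (A ⧸ C)) A × (Via (π.comp (rh (Lett (A ⧸ C)) A)) Unit × Unit))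
      (A' := TA (Lett (A ⧸ C)) A × (Via (π.comp (rh (Lett (A ⧸ C)) A)) Unit × Unit))
      (B' := TB (Lett (A ⧸ C)) A × (Via (π.comp (rh (Lett (A ⧸ C)) A)) Unit × Unit))
      (fun x => (x.1, (toVia _ (), ()))) (fun x => (x.1, (toVia _ (), ())))
      (fun x => (x.1, (toVia _ (), ())))
      (fun g m => rfl) (fun g m => rfl) (fun g m => rfl)
      (fun x y h => by
        have h3 : x.1 = y.1 := congrArg (fun q => q.1) h
        exact Prod.ext h3 rfl)
      (fun δ => rfl) (fun δ => rfl) h2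
  have hl' : Loc (pV fun i => (((), ξ i) : Unit × (A ⧸ C))) P :=
    loc_of_inj (fun x : A ⧸ C => (((), x) : Unit × (A ⧸ C))) (fun g m => rfl)
      (fun x y h => congrArg Prod.snd h) hl
  obtain ⟨S, hS, hSe⟩ := key_of_ext hInt hAF (fun _ : ι => ()) ξ hP hl' u hY
  refine ⟨S, ?_, by linarith⟩
  exact hS.mapLab (fun x : Unit × (A ⧸ C) => x.2) fun g m => rfl

end Pool.Agent.HC
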