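import Pool.Agent.HC.NiceDef
import Pool.Agent.HC.FinE
import Pool.Agent.HC.CoAm
import Pool.Agent.HC.Tree

set_option autoImplicit false
set_option linter.unusedSectionVars false

noncomputable section

open scoped InnerProductSpace ENNReal Topology
open Classical Filter ContinuousLinearMap

namespace Pool.Agent.HC

open Pool.Agent.VN Pool.Agent.LFT Pool.Agent.HI

section Nice

variable {k : Subring ℂ}

lemma amSet_of_amenable {A Q : Type} [Group A] [MulAction A Q] (h : AmenableAction A Q) :
    AmSet A Q := by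
  intro F ε hε
  obtain ⟨E, hE, hF⟩ := h F ε hε
  refine ⟨E, hE, fun g hg => ?_⟩
  refine le_trans (le_of_eq ?_) (hF g hg)
  rw [Nat.cast_inj, ← Set.ncard_coe_finset]
  congr 1
  ext x
  simp

/-- the whole group -/
theorem key_top (A : Type) [Group A] : KeyP k A (⊤ : Subgroup A) := by
  intro ι _ d P hP hl u Y hY ε hε
  refine key_of_stab (k := k) (a := fun _ : A ⧸ (⊤ : Subgroup A) => ()) (fun _ _ => rfl)
    (fun g δ _ => ?_) d hP hl u hY hε
  obtain ⟨a, rfl⟩ := QuotientGroup.mk_surjective δ
  rw [MulAction.Quotient.smul_coe, QuotientGroup.eq]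
  trivial

/-- the stabilisers of cosets in a subgroup -/
lemma stab_coset {A : Type} [Group A] (B C : Subgroup A) (a : A) :
    MulAction.stabilizer B (a : A ⧸ C)
      = (C.map (MulAut.conj a).toMonoidHom).subgroupOf B := by
  ext b
  rw [MulAction.mem_stabilizer_iff, Subgroup.mem_subgroupOf, Subgroup.mem_map]
  have h1 : (b • (a : A ⧸ C) = (a : A ⧸ C)) ↔ a⁻¹ * (b : A) * a ∈ C := by
    show ((b : A) • (a : A ⧸ C) = (a : A ⧸ C)) ↔ _
    rw [MulAction.Quotient.smul_coe, smul_eq_mul, eq_comm, QuotientGroup.eq, mul_assoc]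
  rw [h1]
  constructor
  · intro h
    refine ⟨_, h, ?_⟩
    simp [mul_assoc]
  · rintro ⟨c, hc, hcb⟩
    have h2 : a * c * a⁻¹ = b := hcb
    rw [← h2]
    simpa [mul_assoc] using hc

lemma keyG_sub_pairs {A : Type} [Group A] (B C : Subgroup A)
    (h : ∀ a : A, KeyP k B ((C.map (MulAut.conj a).toMonoidHom).subgroupOf B)) :
    KeyG k B (A ⧸ C) := by
  refine keyG_of_orbits fun ξ => ?_
  obtain ⟨a, rfl⟩ := QuotientGroup.mk_surjective ξ
  rw [stab_coset]
  exact h a

theorem key_of_nice {A : Type} [inst : Group A] {C : Subgroup A} (h : Nice k A C)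
    (hA : AtiyahOver k A) : KeyP k A C := by
  induction h with
  | top A => exact key_top A
  | amen A B C hB _ ih =>
    exact key_coam hA B (amSet_of_amenable hB) (keyG_sub_pairs B C fun a =>
      ih a (AtiyahOver.of_injective hA B.subtype Subtype.val_injective))
  | union A C H hH _ ih =>
    exact key_union hA H hH fun F => keyG_sub_pairs (H F) C fun a =>
      ih F a (AtiyahOver.of_injective hA (H F).subtype Subtype.val_injective)
  | hier A C N hNC h =>
    exact key_hierL N C hNC (AtiyahOver.of_injective hA N.subtype Subtype.val_injective) h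
  | one A h =>
    subst h
    exact key_one
  | trans A B C hCB h1 h2 ih1 ih2 =>
    exact key_trans hCB (ih1 hA)
      (ih2 (AtiyahOver.of_injective hA B.subtype Subtype.val_injective))

end Nice

/-- the combination theorem -/
theorem combination (k : Subring ℂ) (G V : Type) [Group G] [MulAction G V] (T : SimpleGraph V)
    (hT : T.IsTree) (hadj : ∀ (g : G) (u v : V), T.Adj u v → T.Adj (g • u) (g • v))
    (hinv : ∀ (g : G) (u v : V), T.Adj u v → ¬ (g • u = v ∧ g • v = u))
    (hA : ∀ v : V, AtiyahOver k (MulAction.stabilizer G v))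
    (hN : ∀ u v : V, T.Adj u v → Nice k (MulAction.stabilizer G u)
      ((MulAction.stabilizer G v).subgroupOf (MulAction.stabilizer G u))) : AtiyahOver k G :=
  atiyah_comb k T hT hadj hinv hA fun u v huv => key_of_nice (hN u v huv) (hA u)

end Pool.Agent.HC
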