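import Pool.Agent.HE.Final

set_option autoImplicit false
set_option linter.unusedSectionVars false

noncomputable section

open scoped InnerProductSpace ENNReal Topology
open Classical Filter ContinuousLinearMap

/-!
The combination theorem: key estimates for pairs of groups.
-/

namespace Pool.Agent.HC

open Pool.Agent.VN Pool.Agent.LFT Pool.Agent.HI

/-- the key estimate for an equivariant map of `G`-sets -/
def KeyS (k : Subring ℂ) (G : Type) [Group G] {D V : Type} [MulAction G D] [MulAction G V]
    (a : D → V) : Prop :=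
  ∀ (ι : Type) (_ : Fintype ι) (d : ι → D) (P : Submodule ℂ (L2 ι G)), CI P → Loc (pV d) P →
    ∀ (u : ℝ) (Y : Submodule ℂ (L2 ι G)), Rat k (fun i => a (d i)) Y → ∀ ε : ℝ, 0 < ε →
      ∃ S, Rat k d S ∧ dm (P ⊓ Y) - u * dm Y - ε ≤ dm (P ⊓ S) - u * dm S

/-- the key estimate for an `A`-set -/
def KeyG (k : Subring ℂ) (A Ξ : Type) [Group A] [MulAction A Ξ] : Prop :=
  KeyS k A (fun _ : Ξ => ())

/-- the key estimate for a pair of groups -/
def KeyP (k : Subring ℂ) (A : Type) [Group A] (C : Subgroup A) : Prop := KeyG k A (A ⧸ C)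

/-- the Følner condition -/
def Folner (Q : Type) [Group Q] : Prop :=
  ∀ (F : Finset Q) (ε : ℝ), 0 < ε → ∃ E : Finset Q, E.Nonempty ∧
    ∀ f ∈ F, ((E.filter fun x => f * x ∉ E).card : ℝ) ≤ ε * E.card

/-- the stabiliser of a point acts on the fibre over the point -/
def fibAct {G D V : Type} [Group G] [MulAction G D] [MulAction G V] (a : D → V) (ha : Eqv G a)
    (v : V) : MulAction (MulAction.stabilizer G v) {δ : D // a δ = v} where
  smul g δ := ⟨(g : G) • δ.1, by rw [ha, δ.2]; exact g.2⟩
  one_smul δ := Subtype.ext (one_smul G δ.1)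
  mul_smul g h δ := Subtype.ext (mul_smul (g : G) (h : G) δ.1)

end Pool.Agent.HC
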