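import Pool.Agent.HC.Defs

set_option autoImplicit false
set_option linter.unusedSectionVars false

noncomputable section

open scoped InnerProductSpace ENNReal Topology
open Classical Filter ContinuousLinearMap

namespace Pool.Agent.HC

open Pool.Agent.VN Pool.Agent.LFT Pool.Agent.HI

section Ind

variable {Γ Γ' : Type} [Group Γ] [Group Γ'] {ι : Type}

lemma push_lt (f : Γ →* Γ') (hf : Function.Injective f) (b : Γ) (x : L2 ι Γ) :
    push _ (injIdx (ι := ι) f hf) (lt b x) = lt (f b) (push _ (injIdx (ι := ι) f hf) x) := by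
  ext r
  obtain ⟨i, g⟩ := r
  rw [lt_apply]
  by_cases hg : ∃ c, f c = g
  · obtain ⟨c, rfl⟩ := hg
    have e1 : push _ (injIdx (ι := ι) f hf) (lt b x) (i, f c) = lt b x (i, c) :=
      push_apply _ (injIdx (ι := ι) f hf) (lt b x) (i, c)
    have e2 : push _ (injIdx (ι := ι) f hf) x (i, f (b⁻¹ * c)) = x (i, b⁻¹ * c) :=
      push_apply _ (injIdx (ι := ι) f hf) x (i, b⁻¹ * c)
    rw [e1, lt_apply]
    rw [map_mul, map_inv] at e2
    exact e2.symm
  · rw [push_apply_of_notMem, push_apply_of_notMem]
    · intro q hq
      apply hg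
      have h2 : f q.2 = (f b)⁻¹ * g := congrArg Prod.snd hq
      exact ⟨b * q.2, by rw [map_mul, h2]; group⟩
    · intro q hq
      apply hg
      have h2 : f q.2 = g := congrArg Prod.snd hq
      exact ⟨q.2, h2⟩

/-- a local subspace is induced -/
theorem ind_of_loc (f : Γ →* Γ') (hf : Function.Injective f) {P : Submodule ℂ (L2 ι Γ')}
    (hP : CI P) (hl : Loc (H12_p f ι) P) :
    ∃ P1 : Submodule ℂ (L2 ι Γ), CI P1 ∧ P = Ind f hf P1 ∧
      ∀ x, x ∈ P1 ↔ push _ (injIdx (ι := ι) f hf) x ∈ P := by
  refine ⟨P.comap (push _ (injIdx (ι := ι) f hf)).toLinearMap, ⟨?_, ?_⟩, ?_, fun x => Iff.rfl⟩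
  · exact hP.cl.preimage (push _ (injIdx (ι := ι) f hf)).continuous
  · intro b x hx
    have h := hP.inv (f b) _ hx
    have e := push_lt f hf b x
    show push _ (injIdx (ι := ι) f hf) (lt b x) ∈ P
    rw [e]
    exact h
  · have hcut : ∀ y : L2 ι Γ', push _ (injIdx (ι := ι) f hf) (resF f hf y)
        = cutF (H12_p f ι) (QuotientGroup.mk 1) y := by
      intro y
      ext r
      obtain ⟨i, g⟩ := r
      rw [cutF_apply]
      by_cases hg : ∃ c, f c = g
      · obtain ⟨c, rfl⟩ := hg
        have e1 : push _ (injIdx (ι := ι) f hf) (resF f hf y) (i, f c) = resF f hf y (i, c) :=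
          push_apply _ (injIdx (ι := ι) f hf) (resF f hf y) (i, c)
        rw [e1, resF_apply, if_pos]
        unfold H12_p
        simp only
        rw [QuotientGroup.eq]
        exact ⟨c⁻¹, by rw [map_inv]; group⟩
      · rw [push_apply_of_notMem, if_neg]
        · intro h
          apply hg
          unfold H12_p at h
          simp only at h
          rw [QuotientGroup.eq] at h
          obtain ⟨c, hc⟩ := h
          exact ⟨c⁻¹, by rw [map_inv, hc]; group⟩
        · intro q hq
          apply hg
          have h2 : f q.2 = g := congrArg Prod.snd hq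
          exact ⟨q.2, h2⟩
    ext z
    rw [mem_Ind]
    constructor
    · intro hz g
      show push _ (injIdx (ι := ι) f hf) (resF f hf (lt g z)) ∈ P
      rw [hcut]
      exact hl _ (hP.inv _ _ hz) _
    · intro hz
      apply mem_of_pieces hP.cl hl
      intro w
      obtain ⟨g, rfl⟩ := QuotientGroup.mk_surjective w
      have h1 : push _ (injIdx (ι := ι) f hf) (resF f hf (lt g⁻¹ z)) ∈ P := hz g⁻¹
      have h2 := hP.inv g _ h1
      have e : lt g (push _ (injIdx (ι := ι) f hf) (resF f hf (lt g⁻¹ z)))
          = cutF (H12_p f ι) (QuotientGroup.mk g) z := by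
        rw [hcut]
        ext r
        obtain ⟨i, h⟩ := r
        rw [lt_apply, cutF_apply, cutF_apply, lt_apply]
        have e1 : (H12_p f ι (i, g⁻¹ * h) = QuotientGroup.mk 1) ↔
            (H12_p f ι (i, h) = QuotientGroup.mk g) := by
          unfold H12_p
          simp only
          rw [QuotientGroup.eq, QuotientGroup.eq]
          constructor
          · intro h3
            have : h⁻¹ * g = (g⁻¹ * h)⁻¹ * 1 := by group
            rw [this]
            exact h3
          · intro h3
            have : (g⁻¹ * h)⁻¹ * 1 = h⁻¹ * g := by group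
            rw [this]
            exact h3
        by_cases h3 : H12_p f ι (i, h) = QuotientGroup.mk g
        · rw [if_pos h3, if_pos (e1.2 h3)]
          simp
        · rw [if_neg h3, if_neg (fun h4 => h3 (e1.1 h4))]
      rw [← e]
      exact h2

end Ind

end Pool.Agent.HC
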