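import Pool.Agent.HL.HierDef

set_option autoImplicit false

namespace Pool.Agent.HC

/-- Amenable actions: for every finite set `F` of elements of the group and every `ε > 0` there is
a finite nonempty set `E` of points such that `g` moves at most `ε |E|` points of `E` out of `E`,
for all `g ∈ F`. -/
def AmenableAction (A Q : Type) [Group A] [MulAction A Q] : Prop :=
  ∀ (F : Finset A) (ε : ℝ), 0 < ε → ∃ E : Finset Q, E.Nonempty ∧
    ∀ g ∈ F, ({x : Q | x ∈ E ∧ g • x ∉ E}.ncard : ℝ) ≤ ε * (E.card : ℝ)

/-- The pairs (group, subgroup) of edges and vertices which are allowed in the combination theorem: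
the smallest class such that `(A, C)` belongs to the class
* if `C = A`,
* if there is a subgroup `B` such that the action of `A` on `A/B` is amenable and the pairs
  `(B, B ∩ a C a⁻¹)` belong to the class,
* if `A` is the directed union of subgroups `H` such that the pairs `(H, H ∩ a C a⁻¹)` belong to
  the class,
* if `C` contains a normal subgroup `N` of `A` such that `A/N` is in the class `HierL`,
* if `k = ℂ` and `C = 1`,
* if `C ≤ B ≤ A` and `(A, B)`, `(B, C)` belong to the class. -/
inductive Nice (k : Subring ℂ) : (A : Type) → [Group A] → Subgroup A → Prop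
  | top (A : Type) [Group A] : Nice k A ⊤
  | amen (A : Type) [Group A] (B C : Subgroup A) (hB : AmenableAction A (A ⧸ B))
      (h : ∀ a : A, Nice k B ((C.map (MulAut.conj a).toMonoidHom).subgroupOf B)) : Nice k A C
  | union (A : Type) [Group A] (C : Subgroup A) (H : Finset A → Subgroup A)
      (hH : ∀ F, ∀ g ∈ F, g ∈ H F)
      (h : ∀ (F : Finset A) (a : A),
        Nice k (H F) ((C.map (MulAut.conj a).toMonoidHom).subgroupOf (H F))) : Nice k A C
  | hier (A : Type) [Group A] (C N : Subgroup A) [N.Normal] (hNC : N ≤ C)
      (h : Pool.Agent.HL.HierL (A ⧸ N)) : Nice k A C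
  | one (A : Type) [Group A] (h : k = ⊤) : Nice k A ⊥
  | trans (A : Type) [Group A] (B C : Subgroup A) (hCB : C ≤ B) (h1 : Nice k A B)
      (h2 : Nice k B (C.subgroupOf B)) : Nice k A C

end Pool.Agent.HC
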