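import Pool.Agent.HC.Trans

set_option autoImplicit false
set_option linter.unusedSectionVars false

noncomputable section

open scoped InnerProductSpace ENNReal Topology
open Classical Filter ContinuousLinearMap

namespace Pool.Agent.HC

open Pool.Agent.VN Pool.Agent.LFT Pool.Agent.HI

section One

variable {H : Type} [Group H] [Subsingleton H] {ι : Type} [Fintype ι]

lemma eq_sum_dl {α : Type} [Fintype α] (x : Ell α) : x = ∑ p, x p • (dl p : Ell α) := by
  ext q
  rw [lp.coeFn_sum, Finset.sum_apply]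
  rw [Finset.sum_eq_single q]
  · rw [lp.coeFn_smul, Pi.smul_apply, dl_apply, if_pos rfl]
    simp
  · intro b _ hb
    rw [lp.coeFn_smul, Pi.smul_apply, dl_apply, if_neg (fun h => hb h.symm)]
    simp
  · intro h
    exact absurd (Finset.mem_univ _) h

lemma op_eq_mulR (Q : L2 ι H →L[ℂ] L2 ι H) :
    ∃ A : ι → (ι × H →₀ ℂ), Q = mulR A := by
  have hF : Fintype H := Fintype.ofSubsingleton 1
  refine ⟨fun j => Finsupp.equivFunOnFinite.symm fun p : ι × H => Q (dl p) (j, 1), ?_⟩
  ext x ⟨j, g⟩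
  have hg : g = 1 := Subsingleton.elim _ _
  subst hg
  rw [mulR_apply]
  simp only
  rw [ev_def]
  rw [Finset.sum_subset (Finset.subset_univ _)]
  · conv_lhs => rw [eq_sum_dl x, map_sum, lp.coeFn_sum, Finset.sum_apply]
    refine Finset.sum_congr rfl fun p _ => ?_
    rw [map_smul, lp.coeFn_smul, Pi.smul_apply, smul_eq_mul, mul_comm]
    have e : ((p.1, (1 : H) * p.2⁻¹) : ι × H) = p := Prod.ext rfl (Subsingleton.elim _ _)
    rw [e]
    rfl
  · intro p _ hp
    rw [Finsupp.notMem_support_iff.1 hp, zero_mul]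

/-- all subspaces over the trivial group are rational over the complex numbers -/
lemma rat_trivial {M : Type} [MulAction H M] (m0 : M) {P : Submodule ℂ (L2 ι H)} (hP : CI P) :
    Rat (⊤ : Subring ℂ) (fun _ : ι => m0) P := by
  have : CompleteSpace P := hP.cl.completeSpace_coe
  obtain ⟨A, hA⟩ := op_eq_mulR (Pᗮ.starProjection : L2 ι H →L[ℂ] L2 ι H)
  have h1 : P = LFT.kr (Pᗮ.starProjection : L2 ι H →L[ℂ] L2 ι H) := by
    ext x
    rw [mem_kr, Submodule.starProjection_apply_eq_zero_iff, Submodule.orthogonal_orthogonal]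
  rw [h1]
  refine Rat.kr (lab' := fun _ : ι => m0) ⟨A, fun j p => trivial, fun j p _ => ?_, hA⟩
  have : p.2⁻¹ = 1 := Subsingleton.elim _ _
  rw [this, one_smul]

end One

section

variable {A : Type} [Group A] {k : Subring ℂ}

/-- the estimate holds if the given subspace is rational itself -/
lemma key_of_rat {D V : Type} [MulAction A D] [MulAction A V] (a : D → V) {ι : Type} [Fintype ι]
    (d : ι → D) {P : Submodule ℂ (L2 ι A)} (hP : Rat k d P) (u : ℝ) {Y : Submodule ℂ (L2 ι A)}
    (_ : Rat k (fun i => a (d i)) Y) :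
    ∃ S, Rat k d S ∧ dm (P ⊓ Y) - u * dm Y ≤ dm (P ⊓ S) - u * dm S := by
  have h1 : dm (P ⊓ Y) ≤ dm P := dm_mono inf_le_left
  have h2 : dm (P ⊓ Y) ≤ dm Y := dm_mono inf_le_right
  have h3 : dm P ≤ dm (⊤ : Submodule ℂ (L2 ι A)) := dm_mono le_top
  have h4 : dm Y ≤ dm (⊤ : Submodule ℂ (L2 ι A)) := dm_mono le_top
  rcases lt_or_ge u 0 with hu | hu
  · refine ⟨⊤, Rat.top d, ?_⟩
    rw [inf_top_eq]
    nlinarith
  · rcases le_or_gt u 1 with hu1 | hu1
    · refine ⟨P, hP, ?_⟩
      rw [inf_idem]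
      nlinarith
    · refine ⟨⊥, Rat.bot d, ?_⟩
      rw [inf_bot_eq, dm_bot]
      have h5 : 0 ≤ dm (P ⊓ Y) := dm_nonneg _
      nlinarith

/-- over the complex numbers the estimate holds for the trivial subgroup -/
theorem key_one : KeyP (⊤ : Subring ℂ) A ⊥ := by
  intro ι _ ξ P hP hl u Y hY ε hε
  have hR : Rat (⊤ : Subring ℂ) ξ P := by
    choose g hg using fun i => QuotientGroup.mk_surjective (ξ i)
    have hc : ∀ i, (g i)⁻¹ • ξ i = (QuotientGroup.mk 1 : A ⧸ (⊥ : Subgroup A)) := fun i => by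
      rw [← hg i, MulAction.Quotient.smul_coe, smul_eq_mul, inv_mul_cancel]
    have hP' := twS_ci (fun i => (g i)⁻¹) hP
    have hl' := twS_loc (fun i => (g i)⁻¹) hl
    have e1 : (fun i => (g i)⁻¹ • ξ i) = fun _ : ι => (QuotientGroup.mk 1 : A ⧸ (⊥ : Subgroup A)) :=
      funext hc
    rw [e1] at hl'
    set f : (⊥ : Subgroup A) →* A := (⊥ : Subgroup A).subtype with hf
    have hfi : Function.Injective f := Subtype.val_injective
    have hlH : Loc (H12_p f ι) (twS (fun i => (g i)⁻¹) P) := by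
      intro x hx w
      obtain ⟨g', rfl⟩ := QuotientGroup.mk_surjective w
      have h1 := hl' x hx (QuotientGroup.mk g')
      have e2 : cutF (H12_p f ι) (QuotientGroup.mk g') x
          = cutF (pV fun _ : ι => (QuotientGroup.mk 1 : A ⧸ (⊥ : Subgroup A)))
            (QuotientGroup.mk g') x := by
        ext ⟨i, h⟩
        rw [cutF_apply, cutF_apply]
        have e3 : (H12_p f ι (i, h) = QuotientGroup.mk g') ↔
            (pV (fun _ : ι => (QuotientGroup.mk 1 : A ⧸ (⊥ : Subgroup A))) (i, h)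
              = QuotientGroup.mk g') := by
          unfold H12_p pV
          simp only
          rw [QuotientGroup.eq, MulAction.Quotient.smul_coe, smul_eq_mul, mul_one,
            QuotientGroup.eq]
          constructor
          · rintro ⟨s, hs⟩
            rw [← hs]
            exact s.2
          · intro h2
            exact ⟨⟨_, h2⟩, rfl⟩
        by_cases h4 : H12_p f ι (i, h) = QuotientGroup.mk g'
        · rw [if_pos h4, if_pos (e3.1 h4)]
        · rw [if_neg h4, if_neg (fun h5 => h4 (e3.2 h5))]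
      rw [e2]
      exact h1
    obtain ⟨P1, hP1, hPe, -⟩ := ind_of_loc f hfi hP' hlH
    have h2 : Rat (⊤ : Subring ℂ) (fun _ : ι => ()) P1 := rat_trivial () hP1
    have h3 := rat_ind f hfi (M := Unit) (M' := A ⧸ (⊥ : Subgroup A))
      (fun _ => QuotientGroup.mk 1) (fun γ _ => by
        rw [MulAction.Quotient.smul_coe, smul_eq_mul, mul_one, QuotientGroup.eq, inv_one, one_mul]
        exact γ.2) h2
    rw [← hPe] at h3
    have h4 := twS_rat (fun i => (g i)⁻¹⁻¹) h3
    rw [twS_inv] at h4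
    have e5 : (fun i => (g i)⁻¹⁻¹ • (QuotientGroup.mk 1 : A ⧸ (⊥ : Subgroup A))) = ξ := by
      funext i
      rw [inv_inv, ← hg i, MulAction.Quotient.smul_coe, smul_eq_mul, mul_one]
    rw [e5] at h4
    exact h4
  obtain ⟨S, hS, hSe⟩ := key_of_rat (fun _ : A ⧸ (⊥ : Subgroup A) => ()) ξ hR u hY
  exact ⟨S, hS, by linarith⟩

end

end Pool.Agent.HC
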