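import Pool.Agent.HC.Split

set_option autoImplicit false
set_option linter.unusedSectionVars false

noncomputable section

open scoped InnerProductSpace ENNReal Topology
open Classical Filter ContinuousLinearMap

namespace Pool.Agent.HC

open Pool.Agent.VN Pool.Agent.LFT Pool.Agent.HI

variable {G : Type} [Group G] {k : Subring ℂ}

lemma H19_E_loc {M : Type} [MulAction G M] {ι : Type} [Fintype ι] (s : Set ι) (lab : ι → M) :
    LocOp k (fun i : s => lab i.1) lab (H19_E s : L2 s G →L[ℂ] L2 ι G) := by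
  refine ⟨_, fun i p => ?_, fun i p hp => ?_, rfl⟩
  · split_ifs with h
    · exact coefIn_single k _ _ k.one_mem p
    · exact k.zero_mem
  · split_ifs at hp with h
    · have h1 := Finset.mem_singleton.mp (Finsupp.support_single_subset hp)
      subst h1
      simp
    · simp at hp

/-- splitting of the estimate: the second argument is not stable -/
lemma dm_split {ι : Type} [Fintype ι] {s t : Set ι} (hst : ∀ i, i ∈ t ↔ i ∉ s)
    {Y : Submodule ℂ (L2 ι G)} (hY : CI Y) :
    dm Y = dm (Y.comap (H19_E s : L2 s G →L[ℂ] L2 ι G).toLinearMap) + dm (imc (H19_R t) Y) := by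
  have h1 := dm_imc (H19_R_equivar (G := G) t) hY
  have hE : Equivar (H19_E s : L2 s G →L[ℂ] L2 ι G) := mulR_equivar _
  have hker : kr (H19_E s : L2 s G →L[ℂ] L2 ι G) = ⊥ := by
    rw [eq_bot_iff]
    intro y hy
    rw [Submodule.mem_bot, ← H19_R_E s y, mem_kr.mp hy, map_zero]
  have h2 := dm_imc hE (CI.comap hE hY)
  rw [hker, inf_bot_eq, dm_bot, add_zero] at h2
  have h3 : imc (H19_E s) (Y.comap (H19_E s : L2 s G →L[ℂ] L2 ι G).toLinearMap)
      = Y ⊓ kr (H19_R t : L2 ι G →L[ℂ] L2 t G) := by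
    apply le_antisymm
    · apply imc_le (hY.inf (CI.kr (H19_R_equivar t))).cl
      intro x hx
      refine ⟨hx, ?_⟩
      exact H19_R_E' (fun i hi => (hst i).1 hi) x
    · rintro x ⟨hx1, hx2⟩
      have h4 := H19_cp_add hst x
      have h5 : cp t x = 0 := by
        rw [← H19_E_R t x, mem_kr.mp hx2, map_zero]
      rw [h5, add_zero] at h4
      rw [← H19_E_R s x] at h4
      have h6 : H19_R s x ∈ Y.comap (H19_E s : L2 s G →L[ℂ] L2 ι G).toLinearMap := by
        show H19_E s (H19_R s x) ∈ Y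
        rw [h4]
        exact hx1
      have h7 := mem_imc (H19_E s) h6
      rwa [h4] at h7
  rw [← h2, h3]
  linarith

/-- the estimate for a disjoint union of orbits -/
theorem keyG_of_orbits {Ξ : Type} [MulAction G Ξ]
    (h : ∀ ξ : Ξ, KeyG k G (G ⧸ MulAction.stabilizer G ξ)) : KeyG k G Ξ := by
  set cV : Ξ → Quotient (MulAction.orbitRel G Ξ) := Quotient.mk _ with hcV
  have hc : ∀ (g : G) x, cV (g • x) = cV x := fun g x =>
    Quotient.sound (s := MulAction.orbitRel G Ξ) ⟨g, rfl⟩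
  have one : ∀ (ξ0 : Ξ) (ι : Type) (_ : Fintype ι) (ξ : ι → Ξ), (∀ i, ∃ g : G, g • ξ0 = ξ i) →
      ∀ (P : Submodule ℂ (L2 ι G)), CI P → Loc (pV ξ) P →
      ∀ (u : ℝ) (Y : Submodule ℂ (L2 ι G)), Rat k (fun _ => ()) Y → ∀ ε : ℝ, 0 < ε →
      ∃ S, Rat k ξ S ∧ dm (P ⊓ Y) - u * dm Y - ε ≤ dm (P ⊓ S) - u * dm S := by
    intro ξ0 ι _ ξ hξ P hP hl u Y hY ε hε
    choose g hg using hξ
    set j : G ⧸ MulAction.stabilizer G ξ0 → Ξ := MulAction.ofQuotientStabilizer G ξ0 with hj
    have hje : Eqv G j := fun g' x => MulAction.ofQuotientStabilizer_smul G ξ0 g' x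
    have hji : Function.Injective j := MulAction.injective_ofQuotientStabilizer G ξ0
    have e1 : ξ = fun i => j (QuotientGroup.mk (g i)) := by
      funext i
      rw [← hg i]
      rfl
    have hl' : Loc (pV fun i => (QuotientGroup.mk (g i) : G ⧸ MulAction.stabilizer G ξ0)) P := by
      intro x hx w
      have h1 := hl x hx (j w)
      have e2 : cutF (pV fun i => (QuotientGroup.mk (g i) : G ⧸ MulAction.stabilizer G ξ0)) w x
          = cutF (pV ξ) (j w) x := by
        ext ⟨i, h'⟩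
        rw [cutF_apply, cutF_apply]
        have e3 : pV (G := G) ξ (i, h') = j (pV (fun i => (QuotientGroup.mk (g i) :
            G ⧸ MulAction.stabilizer G ξ0)) (i, h')) := by
          rw [e1]
          show h' • j _ = j (h' • _)
          rw [hje]
        rw [e3]
        by_cases h4 : pV (fun i => (QuotientGroup.mk (g i) :
            G ⧸ MulAction.stabilizer G ξ0)) (i, h') = w
        · rw [if_pos h4, if_pos (congrArg j h4)]
        · rw [if_neg h4, if_neg (fun h5 => h4 (hji h5))]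
      rw [e2]
      exact h1
    obtain ⟨S, hS, hSe⟩ := h ξ0 ι inferInstance _ P hP hl' u Y hY ε hε
    refine ⟨S, ?_, hSe⟩
    rw [e1]
    exact hS.mapLab j hje
  have main : ∀ F : Finset (Quotient (MulAction.orbitRel G Ξ)), ∀ (ι : Type) (_ : Fintype ι)
      (d : ι → Ξ), (∀ i, cV (d i) ∈ F) → ∀ (P : Submodule ℂ (L2 ι G)), CI P → Loc (pV d) P →
      ∀ (u : ℝ) (Y : Submodule ℂ (L2 ι G)), Rat k (fun _ => ()) Y → ∀ ε : ℝ, 0 < ε →
      ∃ S, Rat k d S ∧ dm (P ⊓ Y) - u * dm Y - ε ≤ dm (P ⊓ S) - u * dm S := by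
    intro F
    induction F using Finset.induction_on with
    | empty =>
      intro ι _ d hd P _ _ u Y _ ε hε
      have hι : IsEmpty ι := ⟨fun i => by simpa using hd i⟩
      refine ⟨⊥, Rat.bot d, ?_⟩
      rw [dm_isEmpty, dm_isEmpty, dm_isEmpty, dm_isEmpty]
      linarith
    | insert c0 F _ ih =>
      intro ι _ d hd P hP hl u Y hY ε hε
      obtain ⟨s, hs⟩ : ∃ s : Set ι, ∀ i, i ∈ s ↔ cV (d i) = c0 :=
        ⟨{i | cV (d i) = c0}, fun i => Iff.rfl⟩
      obtain ⟨t, hst⟩ : ∃ t : Set ι, ∀ i, i ∈ t ↔ i ∉ s := ⟨sᶜ, fun i => Iff.rfl⟩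
      have e0 := H19_eq_bt hst hP.cl (H19_stable (fun m : Ξ => m) (fun _ _ => rfl) cV hc d
        (c0 := c0) hs hP.cl hl)
      have hPs : CI (imc (H19_R s) P) := CI.imc (H19_R_equivar s) hP.inv
      have hPt : CI (imc (H19_R t) P) := CI.imc (H19_R_equivar t) hP.inv
      have hls : Loc (pV fun i : s => d i.1) (imc (H19_R s) P) := loc_imc (H19_R_loc (k := k) s d) hl
      have hlt : Loc (pV fun i : t => d i.1) (imc (H19_R t) P) := loc_imc (H19_R_loc (k := k) t d) hl
      have hE : Equivar (H19_E s : L2 s G →L[ℂ] L2 ι G) := mulR_equivar _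
      have r1 : Rat k (fun _ : s => ()) (Y.comap (H19_E s : L2 s G →L[ℂ] L2 ι G).toLinearMap) :=
        rat_comap (H19_E_loc s (fun _ => ())) hY
      have r1' : Rat k (fun _ : t => ()) (imc (H19_R t) Y) :=
        Rat.imc (H19_R_loc t (fun _ => ())) hY
      obtain ⟨v, hv⟩ := Quotient.exists_rep c0
      obtain ⟨S, hS, hS'⟩ := one v s inferInstance (fun i => d i.1)
        (fun i => by
          have h1 : cV (d i.1) = c0 := (hs i.1).1 i.2
          rw [← hv] at h1
          have h2 := Quotient.exact h1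
          obtain ⟨g, hg⟩ := h2
          exact ⟨g, hg⟩) _ hPs hls u _ r1 (ε / 2) (half_pos hε)
      obtain ⟨T, hT, hT'⟩ := ih t inferInstance (fun i => d i.1) (fun i => by
        rcases Finset.mem_insert.1 (hd i.1) with h2 | h2
        · exact absurd ((hs i.1).2 h2) ((hst i.1).1 i.2)
        · exact h2) _ hPt hlt u _ r1' (ε / 2) (half_pos hε)
      refine ⟨H19_bt s t S T, H19_rat_bt s t d hS hT, ?_⟩
      have f1 := dm_split hst hY.ci
      have f2 := dm_split hst (hP.inf hY.ci)
      have f3 : dm ((P ⊓ Y).comap (H19_E s : L2 s G →L[ℂ] L2 ι G).toLinearMap)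
          ≤ dm (imc (H19_R s) P ⊓ Y.comap (H19_E s : L2 s G →L[ℂ] L2 ι G).toLinearMap) := by
        apply dm_mono
        intro x hx
        refine ⟨?_, hx.2⟩
        have h1 := mem_imc (H19_R s) hx.1
        change H19_R s (H19_E s x) ∈ _ at h1
        rwa [H19_R_E] at h1
      have f4 : dm (imc (H19_R t) (P ⊓ Y)) ≤ dm (imc (H19_R t) P ⊓ imc (H19_R t) Y) := by
        apply dm_mono
        apply imc_le (hPt.inf r1'.ci).cl
        intro x hx
        exact ⟨mem_imc _ hx.1, mem_imc _ hx.2⟩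
      have f5 : dm (P ⊓ H19_bt s t S T) = dm (imc (H19_R s) P ⊓ S) + dm (imc (H19_R t) P ⊓ T) := by
        conv_lhs => rw [e0]
        rw [H19_bt_inf, H19_dm_bt hst (hPs.inf hS.ci) (hPt.inf hT.ci)]
      have f6 : dm (H19_bt s t S T) = dm S + dm T := H19_dm_bt hst hS.ci hT.ci
      rw [f5, f6, f2, f1]
      linarith
  intro ι _ d P hP hl u Y hY ε hε
  exact main (Finset.univ.image fun i => cV (d i)) ι _ d
    (fun i => Finset.mem_image_of_mem _ (Finset.mem_univ i)) P hP hl u Y hY ε hε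

end Pool.Agent.HC
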