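import Pool.Agent.HC.Tw

set_option autoImplicit false
set_option linter.unusedSectionVars false

noncomputable section

open scoped InnerProductSpace ENNReal Topology
open Classical Filter ContinuousLinearMap

namespace Pool.Agent.HC

open Pool.Agent.VN Pool.Agent.LFT Pool.Agent.HI

variable {G : Type} [Group G] {k : Subring ℂ}

/-- the orbits are independent -/
theorem keyS_of_stab {D V : Type} [MulAction G D] [MulAction G V] (a : D → V) (ha : Eqv G a)
    (h : ∀ v : V, @KeyG k (MulAction.stabilizer G v) {δ : D // a δ = v} _ (fibAct a ha v)) :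
    KeyS k G a := by
  set cV : V → Quotient (MulAction.orbitRel G V) := Quotient.mk _ with hcV
  have hc : ∀ (g : G) x, cV (g • x) = cV x := fun g x =>
    Quotient.sound (s := MulAction.orbitRel G V) ⟨g, rfl⟩
  have main : ∀ F : Finset (Quotient (MulAction.orbitRel G V)), ∀ (ι : Type) (_ : Fintype ι)
      (d : ι → D), (∀ i, cV (a (d i)) ∈ F) → ∀ (P : Submodule ℂ (L2 ι G)), CI P → Loc (pV d) P →
      ∀ (u : ℝ) (Y : Submodule ℂ (L2 ι G)), Rat k (fun i => a (d i)) Y → ∀ ε : ℝ, 0 < ε →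
      ∃ S, Rat k d S ∧ dm (P ⊓ Y) - u * dm Y - ε ≤ dm (P ⊓ S) - u * dm S := by
    intro F
    induction F using Finset.induction_on with
    | empty =>
      intro ι _ d hd P _ _ u Y _ ε hε
      have hι : IsEmpty ι := ⟨fun i => by simpa using hd i⟩
      refine ⟨⊥, Rat.bot d, ?_⟩
      rw [dm_isEmpty, dm_isEmpty, dm_isEmpty, dm_isEmpty]
      linarith
    | insert c0 F _ ih =>
      intro ι _ d hd P hP hl u Y hY ε hε
      obtain ⟨s, hs⟩ : ∃ s : Set ι, ∀ i, i ∈ s ↔ cV (a (d i)) = c0 :=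
        ⟨{i | cV (a (d i)) = c0}, fun i => Iff.rfl⟩
      obtain ⟨t, hst⟩ : ∃ t : Set ι, ∀ i, i ∈ t ↔ i ∉ s := ⟨sᶜ, fun i => Iff.rfl⟩
      have e0 := H19_eq_bt hst hP.cl (H19_stable a ha cV hc d (c0 := c0) hs
        hP.cl (loc_map a ha hP hl))
      have e1 := H19_eq_bt hst hY.ci.cl (H19_stable a ha cV hc d (c0 := c0) hs
        hY.ci.cl hY.loc)
      have hPs : CI (imc (H19_R s) P) := CI.imc (H19_R_equivar s) hP.inv
      have hPt : CI (imc (H19_R t) P) := CI.imc (H19_R_equivar t) hP.inv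
      have hls : Loc (pV fun i : s => d i.1) (imc (H19_R s) P) := loc_imc (H19_R_loc (k := k) s d) hl
      have hlt : Loc (pV fun i : t => d i.1) (imc (H19_R t) P) := loc_imc (H19_R_loc (k := k) t d) hl
      have r1 : Rat k (fun i : s => a (d i.1)) (imc (H19_R s) Y) :=
        Rat.imc (H19_R_loc s (fun i => a (d i))) hY
      have r1' : Rat k (fun i : t => a (d i.1)) (imc (H19_R t) Y) :=
        Rat.imc (H19_R_loc t (fun i => a (d i))) hY
      obtain ⟨v, hv⟩ := Quotient.exists_rep c0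
      obtain ⟨S, hS, hS'⟩ := keyS_orbit a ha v (h v) s inferInstance (fun i => d i.1)
        (fun i => by
          have h1 : cV (a (d i.1)) = c0 := (hs i.1).1 i.2
          rw [← hv] at h1
          have h2 := Quotient.exact h1
          obtain ⟨g, hg⟩ := h2
          exact ⟨g⁻¹, by rw [← hg]; exact inv_smul_smul _ _⟩) _ hPs hls u _ r1 (ε / 2)
        (half_pos hε)
      obtain ⟨T, hT, hT'⟩ := ih t inferInstance (fun i => d i.1) (fun i => by
        rcases Finset.mem_insert.1 (hd i.1) with h2 | h2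
        · exact absurd ((hs i.1).2 h2) ((hst i.1).1 i.2)
        · exact h2) _ hPt hlt u _ r1' (ε / 2) (half_pos hε)
      refine ⟨H19_bt s t S T, H19_rat_bt s t d hS hT, ?_⟩
      rw [e0, e1, H19_bt_inf, H19_bt_inf,
        H19_dm_bt hst (hPs.inf r1.ci) (hPt.inf r1'.ci),
        H19_dm_bt hst r1.ci r1'.ci,
        H19_dm_bt hst (hPs.inf hS.ci) (hPt.inf hT.ci), H19_dm_bt hst hS.ci hT.ci]
      linarith
  intro ι _ d P hP hl u Y hY ε hε
  exact main (Finset.univ.image fun i => cV (a (d i))) ι _ d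
    (fun i => Finset.mem_image_of_mem _ (Finset.mem_univ i)) P hP hl u Y hY ε hε

end Pool.Agent.HC
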