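import Pool.Agent.HC.Ind

set_option autoImplicit false
set_option linter.unusedSectionVars false

noncomputable section

open scoped InnerProductSpace ENNReal Topology
open Classical Filter ContinuousLinearMap

/-!
Change of coordinates by right translations.
-/

namespace Pool.Agent.HC

open Pool.Agent.VN Pool.Agent.LFT Pool.Agent.HI

section Tw

variable {G : Type} [Group G] {k : Subring ℂ} {ι : Type} [Fintype ι]

/-- right translation of the coordinates -/
def tw (c : ι → G) : L2 ι G →L[ℂ] L2 ι G := mulR fun i => Finsupp.single (i, (c i)⁻¹) 1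

lemma tw_apply (c : ι → G) (x : L2 ι G) (i : ι) (g : G) : tw c x (i, g) = x (i, g * c i) := by
  unfold tw
  rw [mulR_apply]
  simp only
  rw [ev_single]
  simp

lemma tw_tw (c c' : ι → G) (h : ∀ i, c i * c' i = 1) (x : L2 ι G) : tw c (tw c' x) = x := by
  ext ⟨i, g⟩
  rw [tw_apply, tw_apply, mul_assoc, h, mul_one]

lemma tw_loc {M : Type} [MulAction G M] (c : ι → G) (lab : ι → M) :
    LocOp k lab (fun i => c i • lab i) (tw c) := by
  refine ⟨_, fun i p => coefIn_single k _ _ k.one_mem p, fun i p hp => ?_, rfl⟩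
  have h1 := Finset.mem_singleton.mp (Finsupp.support_single_subset hp)
  subst h1
  simp

lemma tw_equivar (c : ι → G) : Equivar (tw c) := mulR_equivar _

lemma tw_ker (c : ι → G) : kr (tw c) = ⊥ := by
  rw [eq_bot_iff]
  intro y hy
  rw [Submodule.mem_bot, ← tw_tw (fun i => (c i)⁻¹) c (fun i => inv_mul_cancel _) y,
    mem_kr.mp hy, map_zero]

/-- the image of a subspace under a right translation -/
def twS (c : ι → G) (X : Submodule ℂ (L2 ι G)) : Submodule ℂ (L2 ι G) :=
  X.comap (tw fun i => (c i)⁻¹).toLinearMap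

lemma mem_twS (c : ι → G) (X : Submodule ℂ (L2 ι G)) (x : L2 ι G) :
    x ∈ twS c X ↔ tw (fun i => (c i)⁻¹) x ∈ X := Iff.rfl

lemma twS_ci (c : ι → G) {X : Submodule ℂ (L2 ι G)} (hX : CI X) : CI (twS c X) :=
  CI.comap (tw_equivar _) hX

lemma twS_imc (c : ι → G) {X : Submodule ℂ (L2 ι G)} (hX : CI X) : twS c X = imc (tw c) X := by
  apply le_antisymm
  · intro x hx
    have h1 := mem_imc (tw c) ((mem_twS c X x).1 hx)
    rwa [tw_tw c _ (fun i => mul_inv_cancel _)] at h1
  · apply imc_le (twS_ci c hX).cl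
    intro x hx
    rw [mem_twS, tw_tw _ _ (fun i => inv_mul_cancel _)]
    exact hx

lemma twS_dm (c : ι → G) {X : Submodule ℂ (L2 ι G)} (hX : CI X) : dm (twS c X) = dm X := by
  rw [twS_imc c hX]
  have h3 := dm_imc (tw_equivar c) hX
  rw [tw_ker, inf_bot_eq, dm_bot, add_zero] at h3
  exact h3

lemma twS_inf (c : ι → G) (X Y : Submodule ℂ (L2 ι G)) : twS c (X ⊓ Y) = twS c X ⊓ twS c Y := rfl

lemma twS_rat {M : Type} [MulAction G M] (c : ι → G) {lab : ι → M} {X : Submodule ℂ (L2 ι G)}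
    (hX : Rat k lab X) : Rat k (fun i => c i • lab i) (twS c X) := by
  rw [twS_imc c hX.ci]
  exact Rat.imc (tw_loc c lab) hX

lemma twS_loc {M : Type} [MulAction G M] (c : ι → G) {lab : ι → M} {X : Submodule ℂ (L2 ι G)}
    (hX : Loc (pV lab) X) : Loc (pV fun i => c i • lab i) (twS c X) := by
  intro x hx w
  rw [mem_twS] at hx ⊢
  have e : tw (fun i => (c i)⁻¹) (cutF (pV fun i => c i • lab i) w x)
      = cutF (pV lab) w (tw (fun i => (c i)⁻¹) x) := by
    ext ⟨i, g⟩
    rw [tw_apply, cutF_apply, cutF_apply, tw_apply]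
    have e1 : pV (fun i => c i • lab i) (i, g * (c i)⁻¹) = pV (G := G) lab (i, g) := by
      show (g * (c i)⁻¹) • c i • lab i = g • lab i
      rw [smul_smul, inv_mul_cancel_right]
    rw [e1]
  rw [e]
  exact hX _ hx w

lemma twS_inv (c : ι → G) (X : Submodule ℂ (L2 ι G)) : twS (fun i => (c i)⁻¹) (twS c X) = X := by
  ext x
  rw [mem_twS, mem_twS, tw_tw _ _ (fun i => by simp)]

end Tw

section Transfer

variable {G : Type} [Group G] {k : Subring ℂ}

/-- the estimate for labels over one orbit -/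
theorem keyS_orbit' {D V : Type} [MulAction G D] [MulAction G V] (a : D → V) (ha : Eqv G a) (v : V)
    {H Φ : Type} [Group H] [MulAction H Φ] (f : H →* G) (hfi : Function.Injective f)
    (hfr : ∀ g : G, g • v = v ↔ ∃ s, f s = g) (j : Φ → D) (hj : ∀ (s : H) φ, j (s • φ) = f s • j φ)
    (hji : Function.Injective j) (hjr : ∀ δ, a δ = v → ∃ φ, j φ = δ)
    (h : KeyG k H Φ)
    (ι : Type) (_ : Fintype ι) (d : ι → D) (hd : ∀ i, ∃ g : G, g • a (d i) = v)
    (P : Submodule ℂ (L2 ι G)) (hP : CI P) (hl : Loc (pV d) P) (u : ℝ)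
    (Y : Submodule ℂ (L2 ι G)) (hY : Rat k (fun i => a (d i)) Y) (ε : ℝ) (hε : 0 < ε) :
    ∃ S, Rat k d S ∧ dm (P ⊓ Y) - u * dm Y - ε ≤ dm (P ⊓ S) - u * dm S := by
  choose c hc using hd
  have hδ : ∀ i, a (c i • d i) = v := fun i => by rw [ha, hc]
  -- the new subspaces
  have hP' := twS_ci c hP
  have hl' : Loc (pV fun i => c i • d i) (twS c P) := twS_loc c hl
  have hY' : Rat k (fun i => c i • a (d i)) (twS c Y) := twS_rat c hY
  have e1 : (fun i => c i • a (d i)) = fun _ : ι => v := funext hc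
  rw [e1] at hY'
  -- descent of `Y`
  obtain ⟨Y1, hY1, hYe⟩ := rat_desc f hfi (M := Unit) (M' := V) (fun _ => v)
    (fun γ _ => ((hfr (f γ)).2 ⟨γ, rfl⟩).symm) (fun _ _ _ => rfl) (fun g _ _ hg => (hfr g).1 hg)
    (lab := fun _ : ι => ()) hY'
  -- descent of `P`
  have hlv : Loc (pV fun _ : ι => v) (twS c P) := by
    have h1 := loc_map a ha hP' hl'
    have e2 : (fun i => a (c i • d i)) = fun _ : ι => v := funext hδ
    rwa [e2] at h1
  have hlH : Loc (H12_p f ι) (twS c P) := by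
    intro x hx w
    obtain ⟨g, rfl⟩ := QuotientGroup.mk_surjective w
    have h1 := hlv x hx (g • v)
    have e2 : cutF (H12_p f ι) (QuotientGroup.mk g) x = cutF (pV fun _ : ι => v) (g • v) x := by
      ext ⟨i, h⟩
      rw [cutF_apply, cutF_apply]
      have e3 : (H12_p f ι (i, h) = QuotientGroup.mk g) ↔ (pV (fun _ : ι => v) (i, h) = g • v) := by
        unfold H12_p
        simp only
        rw [QuotientGroup.eq]
        show _ ↔ h • v = g • v
        constructor
        · rintro ⟨s, hs⟩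
          have h2 : (h⁻¹ * g) • v = v := (hfr _).2 ⟨s, hs⟩
          rw [mul_smul, inv_smul_eq_iff] at h2
          exact h2.symm
        · intro h2
          exact (hfr _).1 (by rw [mul_smul, ← h2, inv_smul_smul])
      by_cases h4 : H12_p f ι (i, h) = QuotientGroup.mk g
      · rw [if_pos h4, if_pos (e3.1 h4)]
      · rw [if_neg h4, if_neg (fun h5 => h4 (e3.2 h5))]
    rw [e2]
    exact h1
  obtain ⟨P1, hP1, hPe, hPm⟩ := ind_of_loc f hfi hP' hlH
  choose ξ hξ using fun i => hjr _ (hδ i)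
  have hξ' : (fun i => c i • d i) = fun i => j (ξ i) := funext fun i => (hξ i).symm
  have hl1 : Loc (pV ξ) P1 := by
    intro x hx w
    rw [hPm] at hx ⊢
    have h1 := hl' _ hx (j w)
    have e2 : push _ (injIdx (ι := ι) f hfi) (cutF (pV ξ) w x)
        = cutF (pV fun i => c i • d i) (j w) (push _ (injIdx (ι := ι) f hfi) x) := by
      ext ⟨i, g⟩
      rw [cutF_apply]
      by_cases hg : ∃ s, f s = g
      · obtain ⟨s, rfl⟩ := hg
        have e3 : push _ (injIdx (ι := ι) f hfi) (cutF (pV ξ) w x) (i, f s)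
            = cutF (pV ξ) w x (i, s) := push_apply _ (injIdx (ι := ι) f hfi) _ (i, s)
        have e4 : push _ (injIdx (ι := ι) f hfi) x (i, f s) = x (i, s) :=
          push_apply _ (injIdx (ι := ι) f hfi) _ (i, s)
        rw [e3, e4, cutF_apply]
        have e5 : (pV ξ (i, s) = w) ↔ (pV (fun i => c i • d i) (i, f s) = j w) := by
          have e6 : pV (fun i => c i • d i) (i, f s) = j (pV ξ (i, s)) := by
            rw [hξ']
            exact (hj s (ξ i)).symm
          rw [e6]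
          exact ⟨fun h5 => by rw [h5], fun h5 => hji h5⟩
        by_cases h4 : pV ξ (i, s) = w
        · rw [if_pos h4, if_pos (e5.1 h4)]
        · rw [if_neg h4, if_neg (fun h5 => h4 (e5.2 h5))]
      · rw [push_apply_of_notMem, push_apply_of_notMem]
        · simp
        · intro q hq
          exact hg ⟨q.2, congrArg Prod.snd hq⟩
        · intro q hq
          exact hg ⟨q.2, congrArg Prod.snd hq⟩
    rw [e2]
    exact h1
  obtain ⟨S1, hS1, hS1e⟩ := h ι inferInstance ξ P1 hP1 hl1 u Y1 hY1 ε hε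
  have hS' : Rat k (fun i => c i • d i) (Ind f hfi S1) := by
    rw [hξ']
    exact rat_ind f hfi (M := Φ) (M' := D) j hj hS1
  refine ⟨twS (fun i => (c i)⁻¹) (Ind f hfi S1), ?_, ?_⟩
  · have h1 := twS_rat (fun i => (c i)⁻¹) hS'
    simpa using h1
  · have e2 : P = twS (fun i => (c i)⁻¹) (twS c P) := (twS_inv c P).symm
    have d1 : dm (P ⊓ Y) = dm (P1 ⊓ Y1) := by
      rw [← twS_dm c (hP.inf hY.ci), twS_inf, hPe, hYe, ← Ind_inf,
        dm_ind f hfi (hP1.inf hY1.ci)]
    have d2 : dm Y = dm Y1 := by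
      rw [← twS_dm c hY.ci, hYe, dm_ind f hfi hY1.ci]
    have d3 : dm (P ⊓ twS (fun i => (c i)⁻¹) (Ind f hfi S1)) = dm (P1 ⊓ S1) := by
      conv_lhs => rw [e2]
      rw [← twS_inf, twS_dm _ (hP'.inf hS'.ci), hPe, ← Ind_inf, dm_ind f hfi (hP1.inf hS1.ci)]
    have d4 : dm (twS (fun i => (c i)⁻¹) (Ind f hfi S1)) = dm S1 := by
      rw [twS_dm _ hS'.ci, dm_ind f hfi hS1.ci]
    rw [d1, d2, d3, d4]
    exact hS1e

/-- the estimate for labels over one orbit -/
theorem keyS_orbit {D V : Type} [MulAction G D] [MulAction G V] (a : D → V) (ha : Eqv G a) (v : V)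
    (h : @KeyG k (MulAction.stabilizer G v) {δ : D // a δ = v} _ (fibAct a ha v))
    (ι : Type) (_ : Fintype ι) (d : ι → D) (hd : ∀ i, ∃ g : G, g • a (d i) = v)
    (P : Submodule ℂ (L2 ι G)) (hP : CI P) (hl : Loc (pV d) P) (u : ℝ)
    (Y : Submodule ℂ (L2 ι G)) (hY : Rat k (fun i => a (d i)) Y) (ε : ℝ) (hε : 0 < ε) :
    ∃ S, Rat k d S ∧ dm (P ⊓ Y) - u * dm Y - ε ≤ dm (P ⊓ S) - u * dm S := by
  let i1 : MulAction (MulAction.stabilizer G v) {δ : D // a δ = v} := fibAct a ha v
  exact keyS_orbit' a ha v (MulAction.stabilizer G v).subtype Subtype.val_injective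
    (fun g => ⟨fun hg => ⟨⟨g, hg⟩, rfl⟩, by rintro ⟨s, rfl⟩; exact s.2⟩)
    (fun δ : {δ : D // a δ = v} => δ.1) (fun s φ => rfl) Subtype.val_injective
    (fun δ hδ => ⟨⟨δ, hδ⟩, rfl⟩) h ι inferInstance d hd P hP hl u Y hY ε hε

end Transfer

end Pool.Agent.HC
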